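import Mathlib

/-!
Unimodal formulas, normal modal logics, decidability, interpolants.
-/

namespace Pool.Agent.MP_400b40_lc

/-- Formulas: propositional variables, verum, falsum, Boolean connectives and one box. -/
inductive Fm : Type
  | var : ℕ → Fm
  | top : Fm
  | bot : Fm
  | neg : Fm → Fm
  | and : Fm → Fm → Fm
  | or : Fm → Fm → Fm
  | imp : Fm → Fm → Fm
  | box : Fm → Fm

/-- Uniform substitution of `σ n` for the variable `n`. -/
def Fm.subst (σ : ℕ → Fm) : Fm → Fm
  | .var n => σ n
  | .top => .top
  | .bot => .bot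
  | .neg a => .neg (a.subst σ)
  | .and a b => .and (a.subst σ) (b.subst σ)
  | .or a b => .or (a.subst σ) (b.subst σ)
  | .imp a b => .imp (a.subst σ) (b.subst σ)
  | .box a => .box (a.subst σ)

/-- The set of variables occurring in a formula. -/
def Fm.vars : Fm → Finset ℕ
  | .var n => {n}
  | .top => ∅
  | .bot => ∅
  | .neg a => a.vars
  | .and a b => a.vars ∪ b.vars
  | .or a b => a.vars ∪ b.vars
  | .imp a b => a.vars ∪ b.vars
  | .box a => a.vars

/-- Classical truth value when the variable `n` gets the value `v n` and the formula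
`box a` is treated as an atom with the value `w a`. -/
def Fm.classical (v : ℕ → Prop) (w : Fm → Prop) : Fm → Prop
  | .var n => v n
  | .top => True
  | .bot => False
  | .neg a => ¬ a.classical v w
  | .and a b => a.classical v w ∧ b.classical v w
  | .or a b => a.classical v w ∨ b.classical v w
  | .imp a b => a.classical v w → b.classical v w
  | .box a => w a

/-- Classical tautologies (with boxed subformulas read as atoms). -/
def IsTautology (φ : Fm) : Prop := ∀ (v : ℕ → Prop) (w : Fm → Prop), φ.classical v w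

/-- Normal modal logics. -/
structure IsNormal (L : Set Fm) : Prop where
  taut : ∀ φ, IsTautology φ → φ ∈ L
  dist : Fm.imp (.box (.imp (.var 0) (.var 1))) (.imp (.box (.var 0)) (.box (.var 1))) ∈ L
  mp : ∀ φ ψ, φ ∈ L → Fm.imp φ ψ ∈ L → ψ ∈ L
  nec : ∀ φ, φ ∈ L → Fm.box φ ∈ L
  subst : ∀ (σ : ℕ → Fm) φ, φ ∈ L → φ.subst σ ∈ L

/-- The smallest normal modal logic. -/
def logicK : Set Fm := ⋂₀ {L | IsNormal L}

/-- The smallest normal modal logic containing `□p → □□p`. -/
def logicK4 : Set Fm :=
  ⋂₀ {L | IsNormal L ∧ Fm.imp (.box (.var 0)) (.box (.box (.var 0))) ∈ L}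

/-- The smallest normal modal logic containing `□(□p → p) → □p`. -/
def logicGL : Set Fm :=
  ⋂₀ {L | IsNormal L ∧ Fm.imp (.box (.imp (.box (.var 0)) (.var 0))) (.box (.var 0)) ∈ L}

/-- Goedel numbering of formulas (a bijection onto the natural numbers). -/
def Fm.code : Fm → ℕ
  | .bot => 0
  | .top => 1
  | .var n => 6 * n + 2
  | .neg a => 6 * a.code + 3
  | .box a => 6 * a.code + 4
  | .and a b => 6 * Nat.pair a.code b.code + 5
  | .or a b => 6 * Nat.pair a.code b.code + 6
  | .imp a b => 6 * Nat.pair a.code b.code + 7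

/-- `L` is decidable: the set of codes of its members is computable. -/
def IsDecidable (L : Set Fm) : Prop :=
  ComputablePred fun n : ℕ => ∃ φ ∈ L, φ.code = n

/-- The implication `φ → ψ` has an `L`-interpolant. -/
def HasInterpolant (L : Set Fm) (φ ψ : Fm) : Prop :=
  ∃ χ : Fm, χ.vars ⊆ φ.vars ∩ ψ.vars ∧ Fm.imp φ χ ∈ L ∧ Fm.imp χ ψ ∈ L

/-- The interpolant existence problem for `L` is decidable: the set of pairs of codes of
formulas `φ`, `ψ` such that `φ → ψ` has an `L`-interpolant is computable. -/
def IEPDecidable (L : Set Fm) : Prop :=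
  ComputablePred fun n : ℕ × ℕ =>
    ∃ φ ψ : Fm, φ.code = n.1 ∧ ψ.code = n.2 ∧ HasInterpolant L φ ψ

end Pool.Agent.MP_400b40_lc
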